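import Pool.Agent.Helper77.SO.St3

/-! Project SO (MP_7a9ddc_co), module GI: no short cycles in the final map. -/

set_option autoImplicit false

namespace Pool.Agent.Helper42.SO.GI

open Equiv Equiv.Perm Pool.Agent.Helper35.PM Pool.Agent.Helper77.HY Pool.Agent.Helper77.OF4
  Pool.Agent.Helper77.SO

theorem zmod2 : ∀ η : ZMod 2, η = 0 ∨ η = 1 := by
  decide

/-- darts in faces of length two between `a` and `b` have the same other end -/
theorem same_end {V D : Type} [Finite D] (M : PMap V D) (y : D → ZMod 2) (η : ZMod 2) (a b : D)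
    (hab : M.r.SameCycle a b) (hne : a ≠ b) (hη : y (M.r a) = η)
    (hoff : ∀ d, M.t d = M.t a → d ≠ a → d ≠ b → y (M.r d) = y d)
    (h2 : ∀ d, y d = η → Function.minimalPeriod M.φ d = 2) :
    M.t (M.ι a) = M.t (M.ι b) := by
  classical
  have hex : ∃ n : ℕ, (M.r ^ n) a = b := hab.exists_nat_pow_eq
  set n := Nat.find hex with hn
  have hnb : (M.r ^ n) a = b := Nat.find_spec hex
  have hmin : ∀ s < n, (M.r ^ s) a ≠ b := fun s hs => Nat.find_min hex hs
  have hn0 : n ≠ 0 := by
    intro h0
    rw [h0] at hnb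
    exact hne (by simpa using hnb)
  have hna : ∀ s, 0 < s → s < n → (M.r ^ s) a ≠ a := by
    intro s hs hsn h
    apply hmin (n - s) (by omega)
    have h3 : (M.r ^ n) a = (M.r ^ (n - s)) ((M.r ^ s) a) := by
      rw [← Perm.mul_apply, ← pow_add]
      congr 2
      omega
    rw [h] at h3
    rw [← h3, hnb]
  have hy : ∀ s, 0 < s → s ≤ n → y ((M.r ^ s) a) = η := by
    intro s hs
    induction s with
    | zero => omega
    | succ s ih =>
      intro hsn
      rw [pow_succ', Perm.mul_apply]
      rcases Nat.eq_zero_or_pos s with h0 | h0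
      · subst h0
        simpa using hη
      · rw [hoff _ (M.t_pow a s) (hna s h0 (by omega)) (hmin s (by omega))]
        exact ih h0 (by omega)
  have ht : ∀ s, s ≤ n → M.t (M.ι ((M.r ^ s) a)) = M.t (M.ι a) := by
    intro s
    induction s with
    | zero =>
      intro _
      simp
    | succ s ih =>
      intro hsn
      rw [← ih (by omega)]
      set d := (M.r ^ (s + 1)) a with hd
      have h3 : M.r ((M.r ^ s) a) = d := by rw [hd, pow_succ', Perm.mul_apply]
      have h4 := h2 d (hy (s + 1) (by omega) hsn)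
      have h5 : M.φ (M.φ d) = d := by
        have h6 := Function.isPeriodicPt_minimalPeriod M.φ d
        rw [h4] at h6
        exact h6
      have h7 : M.φ (M.ι ((M.r ^ s) a)) = d := by
        rw [PMap.φ_apply, M.inv, h3]
      have h8 : M.φ d = M.ι ((M.r ^ s) a) := M.φ.injective (h5.trans h7.symm)
      rw [← t_φ, h8]
  rw [← ht n le_rfl, hnb]

theorem main (hJor : Pool.Agent.Helper35.PM.StJor) : StGi := by
  classical
  intro V D _ _ M L hHC hloop hface v c hc
  set m := c.length with hm
  have hm3 : 3 ≤ m := hc.three_le_length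
  haveI : NeZero m := ⟨by omega⟩
  have hd : ∀ j : ZMod m, ∃ d, M.t d = c.getVert j.val ∧ M.t (M.ι d) = c.getVert (j.val + 1) := by
    intro j
    have h1 := c.adj_getVert_succ (i := j.val) (ZMod.val_lt j)
    exact h1.2
  choose k hk1 hk2 using hd
  have hinj : ∀ i j : ZMod m, c.getVert i.val = c.getVert j.val → i = j := by
    intro i j h
    apply ZMod.val_injective m
    have hi := ZMod.val_lt i
    have hj := ZMod.val_lt j
    exact hc.getVert_injOn' (by simp only [Set.mem_ofPred_eq]; omega)
      (by simp only [Set.mem_ofPred_eq]; omega) h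
  have hsucc : ∀ j : ZMod m, c.getVert (j.val + 1) = c.getVert (j + 1).val := by
    intro j
    have hj := ZMod.val_lt j
    have h1 : (j + 1).val = (j.val + 1) % m := by
      rw [ZMod.val_add]
      haveI : Fact (1 < m) := ⟨by omega⟩
      rw [ZMod.val_one]
    rcases Nat.lt_or_ge (j.val + 1) m with h | h
    · rw [h1, Nat.mod_eq_of_lt h]
    · have h2 : j.val + 1 = m := by omega
      rw [h1, h2, Nat.mod_self, hm, SimpleGraph.Walk.getVert_length, SimpleGraph.Walk.getVert_zero]
  have htwo : (1 : ZMod m) + 1 ≠ 0 := by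
    intro h
    have h1 : ((2 : ℕ) : ZMod m) = 0 := by
      push_cast
      rw [← h]
      norm_num
    rw [ZMod.natCast_eq_zero_iff] at h1
    have := Nat.le_of_dvd (by norm_num) h1
    omega
  have hnext : ∀ j, M.t (M.ι (k j)) = M.t (k (j + 1)) := fun j => by
    rw [hk2, hk1, hsucc]
  have htinj : ∀ i j, M.t (k i) = M.t (k j) → i = j := fun i j h => by
    rw [hk1, hk1] at h
    exact hinj i j h
  have hne : ∀ i j, k i ≠ M.ι (k j) := by
    intro i j h
    have h1 : i = j + 1 := htinj _ _ (by rw [h, hnext])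
    have h2 : i + 1 = j := htinj _ _ (by rw [← hnext, h, M.inv])
    apply htwo
    rw [h1] at h2
    linear_combination h2
  obtain ⟨y, hy1, hy2, hy3⟩ := hJor V D M m k hnext (fun i j h => htinj i j h) hne
  have hcut : cut M y ≤ 2 * m := by
    unfold cut
    have h1 : {d | y (M.ι d) ≠ y d} ⊆ Set.range k ∪ Set.range (fun j => M.ι (k j)) := by
      intro d hd
      by_contra hcon
      rw [Set.mem_union, not_or] at hcon
      exact hd (hy2 d fun j => ⟨fun h => hcon.1 ⟨j, h.symm⟩, fun h => hcon.2 ⟨j, h.symm⟩⟩).1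
    have h2 : ∀ f : ZMod m → D, (Set.range f).ncard ≤ m := by
      intro f
      rw [← Set.image_univ]
      refine (Set.ncard_image_le (Set.toFinite _)).trans ?_
      rw [Set.ncard_univ, Nat.card_zmod]
    refine (Set.ncard_le_ncard h1 (Set.toFinite _)).trans ?_
    refine (Set.ncard_union_le _ _).trans ?_
    have h3 := h2 k
    have h4 := h2 (fun j => M.ι (k j))
    omega
  by_contra hL
  have hnsep : ¬ Sep M y := by
    intro hs
    have := hHC y hy1 hs
    omega
  have hη : ∃ η : ZMod 2, ∀ d, y d = η → Function.minimalPeriod M.φ d = 2 := by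
    by_cases ho : ∃ a, OddD M a
    · obtain ⟨a, ha⟩ := ho
      refine ⟨y a + 1, fun d hd => ?_⟩
      rcases hface d with h | h
      · exact h
      · exfalso
        apply hnsep
        refine ⟨a, d, ha, h, ?_⟩
        rw [hd]
        intro h3
        have h4 : (1 : ZMod 2) = 0 := by linear_combination (-1 : ZMod 2) * h3
        exact absurd h4 (by decide)
    · refine ⟨0, fun d _ => ?_⟩
      rcases hface d with h | h
      · exact h
      · exact absurd ⟨d, h⟩ ho
  obtain ⟨η, hη⟩ := hη
  set α := k 0 with hα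
  set β := M.ι (k (-1)) with hβ
  have htβ : M.t β = M.t α := by
    rw [hβ, hnext, neg_add_cancel]
  have hαβ : α ≠ β := hne _ _
  have hoff : ∀ d, M.t d = M.t α → d ≠ α → d ≠ β → y (M.r d) = y d := by
    intro d hd h1 h2
    refine (hy2 d fun j => ⟨fun h => ?_, fun h => ?_⟩).2
    · apply h1
      rw [h, hα, htinj j 0 (by rw [← h, hd])]
    · apply h2
      have h3 : j + 1 = 0 := htinj _ _ (by rw [← hnext, ← h, hd])
      have h4 : j = -1 := by linear_combination h3
      rw [h, hβ, h4]
  have hend : M.t (M.ι α) = M.t (M.ι β) → False := by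
    intro h
    rw [hα, hnext, hβ, M.inv] at h
    have h1 := htinj _ _ h
    apply htwo
    linear_combination h1
  have h01 : η = 0 ∨ η = 1 := zmod2 η
  rcases h01 with h0 | h1
  · apply hend
    refine (same_end M y η β α (M.trans _ _ htβ) hαβ.symm ?_ ?_ hη).symm
    · rw [h0]
      exact (hy3 (-1)).2.2.2
    · intro d hd h1 h2
      exact hoff d (hd.trans htβ) h2 h1
  · apply hend
    refine same_end M y η α β (M.trans _ _ htβ.symm) hαβ ?_ hoff hη
    rw [h1]
    exact (hy3 0).2.2.1

end Pool.Agent.Helper42.SO.GI
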