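import Pool.Agent.Helper77.SO.St

/-! Project SO (MP_7a9ddc_co), module SUB2: submodularity of cuts. -/

set_option autoImplicit false

namespace Pool.Agent.Helper42.SO.SUB2

open Equiv Equiv.Perm Pool.Agent.Helper35.PM Pool.Agent.Helper77.HY Pool.Agent.Helper77.OF4
  Pool.Agent.Helper77.SO

theorem ncard_sum {D : Type} [Fintype D] (P : D → Prop) [DecidablePred P] :
    {d | P d}.ncard = ∑ d, if P d then 1 else 0 := by
  rw [Set.ncard_eq_toFinset_card', Finset.card_eq_sum_ones, Set.toFinset_setOf,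
    Finset.sum_filter]

theorem pt1 : ∀ a b c e : ZMod 2,
    ((if c * e ≠ a * b then 1 else 0) + if c + e + c * e ≠ a + b + a * b then 1 else 0 : ℕ) ≤
      (if c ≠ a then 1 else 0) + if e ≠ b then 1 else 0 := by
  decide

theorem pt2 : ∀ a b c e : ZMod 2,
    ((if c + c * e ≠ a + a * b then 1 else 0) + (if e + c * e ≠ b + a * b then 1 else 0) +
      2 * ((if a = 1 ∧ b = 1 ∧ c = 0 ∧ e = 0 then 1 else 0) +
        if c = 1 ∧ e = 1 ∧ a = 0 ∧ b = 0 then 1 else 0) : ℕ) ≤
      (if c ≠ a then 1 else 0) + if e ≠ b then 1 else 0 := by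
  decide

theorem main : StSub2 := by
  classical
  intro V D _ M p q
  haveI : Fintype D := Fintype.ofFinite D
  constructor
  · unfold cut
    simp only [ncard_sum]
    rw [← Finset.sum_add_distrib, ← Finset.sum_add_distrib]
    exact Finset.sum_le_sum fun d _ => pt1 (p d) (q d) (p (M.ι d)) (q (M.ι d))
  · unfold cut
    simp only [ncard_sum]
    have h1 : (∑ d, if p (M.ι d) = 1 ∧ q (M.ι d) = 1 ∧ p d = 0 ∧ q d = 0 then 1 else 0 : ℕ) =
        ∑ d, if p d = 1 ∧ q d = 1 ∧ p (M.ι d) = 0 ∧ q (M.ι d) = 0 then 1 else 0 := by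
      refine Finset.sum_bijective M.ι ?_ (by simp) ?_
      · exact Function.Involutive.bijective M.inv
      · intro d _
        rw [M.inv]
    have h2 := Finset.sum_le_sum fun d (_ : d ∈ (Finset.univ : Finset D)) =>
      pt2 (p d) (q d) (p (M.ι d)) (q (M.ι d))
    rw [Finset.sum_add_distrib, Finset.sum_add_distrib, ← Finset.mul_sum,
      Finset.sum_add_distrib, Finset.sum_add_distrib, h1] at h2
    omega

end Pool.Agent.Helper42.SO.SUB2
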